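import Pool.Agent.PCO.StmtsA

/-!
Row BF1 of table nts (MP_e54c4c_gt): basic facts on boxes, I.
-/

set_option autoImplicit false

open Matrix Filter Topology

namespace Pool.Agent.PCO.H90

open Pool.Agent.PFS Pool.Agent.PFJ Pool.Agent.PCO

variable {n : ℕ} {C : Set (V n)} {Γ : Subgroup (GL (Fin n) ℝ)} {U : Submodule ℝ (V n)} {v : V n}

lemma span_unt (h : PCone C) (hv : v ∈ closure C) (hv0 : v ≠ 0) (τ : ℝ) :
    Unt C (Submodule.span ℝ {v}) (τ • v) ↔ 0 < τ := by
  constructor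
  · rintro ⟨-, -, h3⟩
    obtain ⟨M, hM, hMC⟩ := h3 v (Submodule.mem_span_singleton_self v)
    by_contra hτ
    push Not at hτ
    have h4 : M * τ - 1 < 0 := by nlinarith
    have h5 : M • τ • v - v = (M * τ - 1) • v := by
      rw [sub_smul, mul_smul, one_smul]
    rw [h5] at hMC
    have h6 := h.cl_smul hMC (t := (-(M * τ - 1))⁻¹) (inv_nonneg.mpr (by linarith))
    rw [smul_smul] at h6
    have h7 : (-(M * τ - 1))⁻¹ * (M * τ - 1) = -1 := by
      rw [inv_neg, neg_mul, inv_mul_cancel₀ h4.ne]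
    rw [h7, neg_smul, one_smul] at h6
    exact hv0 (h.salient v hv h6)
  · intro hτ
    refine ⟨Submodule.smul_mem _ _ (Submodule.mem_span_singleton_self v),
      h.cl_smul hv hτ.le, fun z hz => ?_⟩
    obtain ⟨a, rfl⟩ := Submodule.mem_span_singleton.mp hz
    refine ⟨(|a| + 1) / τ, by positivity, ?_⟩
    have h5 : ((|a| + 1) / τ) • τ • v - a • v = (|a| + 1 - a) • v := by
      rw [smul_smul, div_mul_cancel₀ _ hτ.ne', sub_smul (|a| + 1) a v]
    rw [h5]
    exact h.cl_smul hv (by have := le_abs_self a; linarith)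

lemma bot_unt (h : PCone C) : Unt C (⊥ : Submodule ℝ (V n)) 0 := by
  refine ⟨Submodule.zero_mem _, h.zero_cl, fun z hz => ⟨1, one_pos, ?_⟩⟩
  rw [(Submodule.mem_bot ℝ).mp hz]
  simpa using h.zero_cl

theorem bf1 (hbxc : BxcStmt) : Bf1Stmt := by
  intro n C Γ hC hmax U v hB
  have h : PCone C := hC.toPCone
  obtain ⟨e, he, e', he', hpes⟩ := hB.pes
  have hbox : Box C Γ (bL U v) ![e, e', v] bB := (hbxc n C Γ hC U v).1 hB e he e' he' hpes
  have hvL : v ∈ LamC C Γ := hpes.2 2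
  have heL : e ∈ LamC C Γ := hpes.2 0
  have heL' : e' ∈ LamC C Γ := hpes.2 1
  have hvc : v ∈ closure C := hC.hul.lamCl v hvL
  have hv0 : v ≠ 0 := hC.hul.lamNe v hvL
  have hvU : v ∉ U := by
    intro hvU
    have h1 := (hB.comp (-v) (U.neg_mem hvU) 1 (by
      rw [one_smul, neg_add_cancel]
      exact h.zero_cl)).1
    exact hv0 (h.salient v hvc h1)
  have hstr : Strict C (bL U v) := PFJ.H82.stcF n C Γ hC 3 le_rfl hmax (bL U v) ![e, e', v] bB hbox
  have hstr0 : ∀ x ∈ U, ∀ y ∈ U, x ∈ closure C → y ∈ closure C → Ind2 x y →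
      Unt C U (x + y) := fun x hx y hy hxc hyc hind => hstr 0 x hx y hy hxc hyc hind
  obtain ⟨-, hbfa2, -, -, -, -⟩ := PFJ.H90.bfa n C Γ h 3 (bL U v) ![e, e', v] bB hbox
  have hfc : ∀ f ∈ U, ∀ τ : ℝ, f + τ • v ∈ C ↔ (Unt C U f ∧ 0 < τ) := by
    intro f hf τ
    have h1 := hbfa2 ![f, τ • v, 0] (by
      intro a
      fin_cases a
      · exact hf
      · exact Submodule.smul_mem _ _ (Submodule.mem_span_singleton_self v)
      · exact Submodule.zero_mem _)
    rw [Fin.sum_univ_three, Fin.forall_fin_succ, Fin.forall_fin_two] at h1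
    have h2 : (![f, τ • v, 0] : Fin 3 → V n) 0 + (![f, τ • v, 0] : Fin 3 → V n) 1 +
        (![f, τ • v, 0] : Fin 3 → V n) 2 = f + τ • v := by
      show f + τ • v + 0 = f + τ • v
      rw [add_zero]
    rw [h2] at h1
    rw [h1]
    constructor
    · rintro ⟨h3, h4, -⟩
      exact ⟨h3, (span_unt h hvc hv0 τ).mp h4⟩
    · rintro ⟨h3, h4⟩
      exact ⟨h3, (span_unt h hvc hv0 τ).mpr h4, bot_unt h⟩
  have hsum : e + e' + (1 : ℝ) • v ∈ C := by
    have h1 := hpes.1.pos (fun _ => 1) (fun _ => one_pos)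
    rw [Fin.sum_univ_three] at h1
    simpa using h1
  have hunit : Unt C U (e + e') := ((hfc _ (U.add_mem he he') 1).mp hsum).1
  have hee0 : e + e' ≠ 0 := by
    intro h0
    have h1 : -e ∈ closure C := by
      rw [neg_eq_of_add_eq_zero_right h0]
      exact hC.hul.lamCl e' heL'
    exact hC.hul.lamNe e heL (h.salient e (hC.hul.lamCl e heL) h1)
  have heeC : e + e' ∉ C := by
    have h1 := hpes.1.bd ![1, 1, 0] (by
      intro i
      fin_cases i <;> simp) ⟨2, rfl⟩
    rw [Fin.sum_univ_three] at h1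
    simpa using h1
  have heeL : e + e' ∈ LamC C Γ :=
    PFS.H37.cloF n C Γ hC (fun _ => e + e') (e + e')
      (fun _ => hC.hul.add e (hC.hul.lamHull e heL) e' (hC.hul.lamHull e' heL'))
      tendsto_const_nhds heeC hee0
  have hlam : ∀ y ∈ U, y ∈ closure C → y ≠ 0 → y ∈ LamC C Γ ∧ y ∉ C := by
    intro y hy hyc hy0
    obtain ⟨M, hM, hMC⟩ := hunit.2.2 y hy
    have h1 : y ∈ LamC C Γ :=
      PFS.H37.flmF n C Γ hC (M • (e + e')) (hC.hul.lamSmul _ heeL M hM) y hyc hy0 hMC
    exact ⟨h1, hC.hul.lamNot y h1⟩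
  refine ⟨hvL, hvc, hv0, hvU, hstr0, hfc, ⟨e + e', hunit⟩, hlam, ?_⟩
  rintro x ⟨hxU, hxc, hx0, hxn⟩ y hy hyc M hM
  have hxneg : -x ∉ closure C := fun h1 => hx0 (h.salient x hxc h1)
  by_cases hind : Ind2 x y
  · exfalso
    have hu : Unt C U (x + y) := hstr0 x hxU y hy hxc hyc hind
    have h1 : Unt C U ((1 + M) • x) := by
      refine (PFJ.H76.unf n C h U (x + y) hu).2.1 _ (U.smul_mem _ hxU) ?_
      have h2 : (1 + M) • x - (x + y) = M • x - y := by
        rw [add_smul, one_smul]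
        abel
      rw [h2]
      exact hM
    have hpos : 0 < 1 + M := by
      by_contra hneg
      push Not at hneg
      obtain ⟨M', hM', hMC'⟩ := h1.2.2 x hxU
      have h3 : M' • (1 + M) • x - x = (M' * (1 + M) - 1) • x := by
        rw [sub_smul, mul_smul, one_smul]
      rw [h3] at hMC'
      have h4 : M' * (1 + M) - 1 < 0 := by nlinarith
      have h6 := h.cl_smul hMC' (t := (-(M' * (1 + M) - 1))⁻¹) (inv_nonneg.mpr (by linarith))
      rw [smul_smul] at h6
      have h7 : (-(M' * (1 + M) - 1))⁻¹ * (M' * (1 + M) - 1) = -1 := by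
        rw [inv_neg, neg_mul, inv_mul_cancel₀ h4.ne]
      rw [h7, neg_smul, one_smul] at h6
      exact hxneg h6
    have h5 := (PFJ.H76.unf n C h U _ h1).1 (1 + M)⁻¹ (inv_pos.mpr hpos)
    rw [smul_smul, inv_mul_cancel₀ hpos.ne', one_smul] at h5
    exact hxn h5
  · unfold Ind2 at hind
    push Not at hind
    obtain ⟨a, b, hab, hne⟩ := hind
    have hb : b ≠ 0 := by
      intro hb
      rw [hb, zero_smul, add_zero] at hab
      rcases smul_eq_zero.mp hab with h1 | h1
      · exact hne h1 hb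
      · exact hx0 h1
    have hy1 : y = (-a / b) • x := by
      have h1 : b • y = (-a) • x := by
        rw [neg_smul]
        exact eq_neg_of_add_eq_zero_right hab
      have h2 : b⁻¹ • b • y = y := by
        rw [smul_smul, inv_mul_cancel₀ hb, one_smul]
      rw [← h2, h1, smul_smul]
      congr 1
      field_simp
    refine ⟨-a / b, ?_, hy1⟩
    by_contra hneg
    push Not at hneg
    rw [hy1] at hyc
    have h6 := h.cl_smul hyc (t := (-(-a / b))⁻¹) (inv_nonneg.mpr (by linarith))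
    rw [smul_smul] at h6
    have h7 : (-(-a / b))⁻¹ * (-a / b) = -1 := by
      rw [inv_neg, neg_mul, inv_mul_cancel₀ hneg.ne]
    rw [h7, neg_smul, one_smul] at h6
    exact hxneg h6

end Pool.Agent.PCO.H90
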